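import Pool.Agent.W606.PS.Stm

set_option autoImplicit false

open Set Relation

namespace Pool.Agent.W19.PS.FC

open Pool.Agent.W606.PS

variable {X E T : Type}

open Classical in
/-- the boundary matrix -/
noncomputable def Mt (K : Cx X E T) : Matrix T E (ZMod 2) :=
  fun t a => ∑ i : Fin 3, if K.te t i = a then 1 else 0

/-- the coboundary -/
def D0 (K : Cx X E T) : (X → ZMod 2) →ₗ[ZMod 2] (E → ZMod 2) where
  toFun b := fun a => b (K.e a 0) + b (K.e a 1)
  map_add' b c := by
    funext a
    simp only [Pi.add_apply]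
    ring
  map_smul' r b := by
    funext a
    simp only [Pi.smul_apply, smul_eq_mul, RingHom.id_apply]
    ring

theorem D0_apply (K : Cx X E T) (b : X → ZMod 2) (a : E) :
    D0 K b a = b (K.e a 0) + b (K.e a 1) := rfl

theorem mulVec_Mt [Fintype E] (K : Cx X E T) (k : E → ZMod 2) (t : T) :
    (Mt K).mulVec k t = k (K.te t 0) + k (K.te t 1) + k (K.te t 2) := by
  classical
  have h1 : (Mt K).mulVec k t = ∑ a, (∑ i : Fin 3, if K.te t i = a then (1 : ZMod 2) else 0) * k a := by
    unfold Mt Matrix.mulVec dotProduct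
    rfl
  rw [h1]
  simp only [Finset.sum_mul, ite_mul, one_mul, zero_mul]
  rw [Finset.sum_comm]
  simp [Fin.sum_univ_three]

theorem pair_sum (b : X → ZMod 2) {u v u' v' : X} (h : s(u, v) = s(u', v')) :
    b u + b v = b u' + b v' := by
  rcases Sym2.eq_iff.1 h with ⟨rfl, rfl⟩ | ⟨rfl, rfl⟩
  · rfl
  · exact add_comm _ _

theorem two_eq : (2 : ZMod 2) = 0 := by decide

theorem range_le_ker [Fintype E] (K : Cx X E T) :
    LinearMap.range (D0 K) ≤ LinearMap.ker (Mt K).mulVecLin := by
  rintro _ ⟨b, rfl⟩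
  rw [LinearMap.mem_ker]
  funext t
  rw [Matrix.mulVecLin_apply, mulVec_Mt, D0_apply, D0_apply, D0_apply,
    pair_sum b (K.inc t 0), pair_sum b (K.inc t 1), pair_sum b (K.inc t 2)]
  have e1 : (0 : Fin 3) + 1 = 1 := rfl
  have e2 : (0 : Fin 3) + 2 = 2 := rfl
  have e3 : (1 : Fin 3) + 1 = 2 := rfl
  have e4 : (1 : Fin 3) + 2 = 0 := rfl
  have e5 : (2 : Fin 3) + 1 = 0 := rfl
  have e6 : (2 : Fin 3) + 2 = 1 := rfl
  rw [e1, e2, e3, e4, e5, e6, Pi.zero_apply]
  linear_combination (b (K.tv t 0) + b (K.tv t 1) + b (K.tv t 2)) * two_eq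

theorem eq_of_add_eq_zero {a b : ZMod 2} (h : a + b = 0) : a = b := by
  linear_combination h - b * two_eq

theorem const_of_ker (K : Cx X E T) (hc : Con K.gr univ) (b : X → ZMod 2)
    (hb : D0 K b = 0) (u v : X) : b u = b v := by
  have hadj : ∀ x y, K.gr.Adj x y → b x = b y := by
    intro x y h
    unfold Cx.gr at h
    rw [SimpleGraph.fromRel_adj] at h
    rcases h.2 with ⟨a, h1, h2⟩ | ⟨a, h1, h2⟩
    · have := congrFun hb a
      rw [D0_apply, h1, h2] at this
      exact eq_of_add_eq_zero this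
    · have := congrFun hb a
      rw [D0_apply, h1, h2] at this
      exact (eq_of_add_eq_zero this).symm
  have := hc.2 u (mem_univ _) v (mem_univ _)
  induction this with
  | refl => rfl
  | tail _ h ih => exact ih.trans (hadj _ _ h.1)

theorem finrank_ker_D0 [Fintype X] (K : Cx X E T) (hc : Con K.gr univ) :
    Module.finrank (ZMod 2) (LinearMap.ker (D0 K)) ≤ 1 := by
  have h1 : (fun _ => 1 : X → ZMod 2) ∈ LinearMap.ker (D0 K) := by
    rw [LinearMap.mem_ker]
    funext a
    rw [D0_apply]
    exact two_eq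
  refine finrank_le_one (⟨fun _ => 1, h1⟩ : LinearMap.ker (D0 K)) ?_
  rintro ⟨w, hw⟩
  obtain ⟨x0, -⟩ := hc.1
  refine ⟨w x0, ?_⟩
  apply Subtype.ext
  funext x
  have := const_of_ker K hc w hw x0 x
  show w x0 * 1 = w x
  rw [mul_one]
  exact this

theorem zmod2_cases (z : ZMod 2) : z = 0 ∨ z = 1 := by
  revert z
  decide

theorem mulVecT [Fintype T] (K : Cx X E T) (y : T → ZMod 2) (a : E) :
    (Mt K).transpose.mulVec y a =
      (({p : T × Fin 3 | p.1 ∈ {t | y t = 1} ∧ K.te p.1 p.2 = a}.ncard : ℕ) : ZMod 2) := by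
  classical
  have h1 : (Mt K).transpose.mulVec y a =
      ∑ t, (∑ i : Fin 3, if K.te t i = a then (1 : ZMod 2) else 0) * y t := by
    unfold Mt Matrix.mulVec dotProduct
    rfl
  have h2 : ∀ t, (∑ i : Fin 3, if K.te t i = a then (1 : ZMod 2) else 0) * y t =
      ∑ i : Fin 3, if (t ∈ {t | y t = 1} ∧ K.te t i = a) then (1 : ZMod 2) else 0 := by
    intro t
    rw [Finset.sum_mul]
    refine Finset.sum_congr rfl fun i _ => ?_
    rcases zmod2_cases (y t) with h | h
    · simp [h]
    · simp [h]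
  rw [h1, Finset.sum_congr rfl fun t _ => h2 t,
    ← Fintype.sum_prod_type' (f := fun t i => if (t ∈ {t | y t = 1} ∧ K.te t i = a) then
      (1 : ZMod 2) else 0), Set.ncard_eq_toFinset_card', Finset.sum_boole]
  congr 2
  ext p
  simp

theorem finrank_ker_MT [Fintype X] [Fintype E] [Fintype T] (K : Cx X E T) (hK : K.IsSphere) :
    Module.finrank (ZMod 2) (LinearMap.ker (Mt K).transpose.mulVecLin) ≤ 1 := by
  have key : ∀ y ∈ LinearMap.ker (Mt K).transpose.mulVecLin, y = 0 ∨ y = fun _ => 1 := by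
    intro y hy
    rw [LinearMap.mem_ker] at hy
    rcases hK.strong {t | y t = 1} (by
      intro a
      rw [← ZMod.natCast_eq_zero_iff_even, ← mulVecT K y a]
      exact congrFun hy a) with h | h
    · left
      funext t
      rcases zmod2_cases (y t) with h' | h'
      · exact h'
      · have : t ∈ {t | y t = 1} := h'
        rw [h] at this
        exact absurd this (notMem_empty t)
    · right
      funext t
      have : t ∈ {t | y t = 1} := h ▸ mem_univ t
      exact this
  by_cases h1 : (fun _ => 1 : T → ZMod 2) ∈ LinearMap.ker (Mt K).transpose.mulVecLin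
  · refine finrank_le_one (⟨fun _ => 1, h1⟩ : LinearMap.ker (Mt K).transpose.mulVecLin) ?_
    rintro ⟨w, hw⟩
    rcases key w hw with rfl | rfl
    · exact ⟨0, by rw [zero_smul]; rfl⟩
    · exact ⟨1, by simp⟩
  · have h2 : LinearMap.ker (Mt K).transpose.mulVecLin = ⊥ := by
      rw [eq_bot_iff]
      intro y hy
      rcases key y hy with rfl | rfl
      · exact Submodule.zero_mem _
      · exact absurd hy h1
    rw [h2, finrank_bot]
    exact zero_le_one

theorem main : S_FC := by
  intro X E T _ _ _ K hK k hk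
  classical
  have h1 := LinearMap.finrank_range_add_finrank_ker (D0 K)
  have h2 := LinearMap.finrank_range_add_finrank_ker (Mt K).mulVecLin
  have h3 := LinearMap.finrank_range_add_finrank_ker (Mt K).transpose.mulVecLin
  have h4 := Matrix.rank_transpose (Mt K)
  unfold Matrix.rank at h4
  have h5 := finrank_ker_D0 K hK.conn
  have h6 := finrank_ker_MT K hK
  have h7 := hK.euler
  rw [Module.finrank_fintype_fun_eq_card] at h1 h2 h3
  have h8 : LinearMap.range (D0 K) = LinearMap.ker (Mt K).mulVecLin := by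
    refine Submodule.eq_of_le_of_finrank_le (range_le_ker K) ?_
    omega
  have h9 : k ∈ LinearMap.ker (Mt K).mulVecLin := by
    rw [LinearMap.mem_ker]
    funext t
    rw [Matrix.mulVecLin_apply, mulVec_Mt]
    exact hk t
  rw [← h8] at h9
  obtain ⟨b, hb⟩ := h9
  exact ⟨b, fun a => by rw [← hb, D0_apply]⟩

end Pool.Agent.W19.PS.FC
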